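import Pool.Agent.U705.RC.Stm

/-! Project RC, package ALPHA: two equivalent orders, no invariance under rotations. -/

set_option autoImplicit false

namespace Pool.Agent.U692.RC

open Pool.Agent.R795.Min Pool.Agent.U705.RC

section lists

variable {P : Type}

theorem sub_of_notin {l s : List P} {x : P} (h : l.Sublist (x :: s)) (hx : x ∉ l) :
    l.Sublist s := by
  cases h with
  | cons _ h => exact h
  | cons_cons _ h => exact absurd (by simp) hx

theorem split_sub {s1 s2 a b : List P} {y : P} (hn : (s1 ++ y :: s2).Nodup)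
    (h : (a ++ y :: b).Sublist (s1 ++ y :: s2)) : a.Sublist s1 ∧ b.Sublist s2 := by
  have hn' := List.nodup_append.mp hn
  have hy2 : y ∉ s2 := (List.nodup_cons.mp hn'.2.1).1
  have hy1 : y ∉ s1 := fun h => hn'.2.2 y h y (by simp) rfl
  obtain ⟨l1, l2, he, h1, h2⟩ := List.sublist_append_iff.mp h
  have hyl1 : y ∉ l1 := fun h => hy1 (h1.subset h)
  rcases List.append_eq_append_iff.mp he with ⟨c, hc1, hc2⟩ | ⟨c, hc1, hc2⟩
  · cases c with
    | nil =>
      simp only [List.append_nil, List.nil_append] at hc1 hc2
      subst hc1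
      rw [← hc2] at h2
      exact ⟨h1, List.cons_sublist_cons.mp h2⟩
    | cons z c =>
      exfalso
      simp only [List.cons_append, List.cons.injEq] at hc2
      apply hyl1
      rw [hc1, hc2.1]
      simp
  · cases c with
    | nil =>
      simp only [List.append_nil, List.nil_append] at hc1 hc2
      subst hc1
      rw [hc2] at h2
      exact ⟨h1, List.cons_sublist_cons.mp h2⟩
    | cons z c =>
      exfalso
      rw [hc2, List.cons_append] at h2
      cases h2 with
      | cons _ h => exact hy2 (h.subset (by simp))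
      | cons_cons _ h => exact hy2 (h.subset (by simp))

theorem tail_sub {s1 s2 p q : List P} {y z : P} (hs : (s1 ++ y :: s2).Nodup) (hz : z ∈ s2)
    (h : (p ++ z :: q).Sublist (s1 ++ y :: s2)) : (z :: q).Sublist s2 := by
  obtain ⟨t1, t2, rfl⟩ := List.append_of_mem hz
  have h4 := split_sub (s1 := s1 ++ y :: t1) (s2 := t2) (a := p) (b := q) (by simpa using hs)
    (by simpa using h)
  exact (h4.2.cons_cons z).trans (List.sublist_append_right t1 _)

theorem gap_aux {w : List P} : ∀ {s q : List P}, s.Nodup → w.Sublist s → q.Sublist s →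
    (∀ y ∈ w, (y :: q).Sublist s) → (w ++ q).Sublist s := by
  induction w with
  | nil => intro s q _ _ hq _; simpa using hq
  | cons y w ih =>
    intro s q hs hw hq h
    have hy : y ∈ s := hw.subset (by simp)
    obtain ⟨s1, s2, rfl⟩ := List.append_of_mem hy
    have h1 := split_sub (a := []) hs hw
    have h2 := split_sub (a := []) hs (h y (by simp))
    have hs2 : s2.Nodup := (List.nodup_cons.mp (List.nodup_append.mp hs).2.1).2
    have h3 : (w ++ q).Sublist s2 := by
      refine ih hs2 h1.2 h2.2 fun z hz => ?_
      exact tail_sub (p := []) hs (h1.2.subset hz) (h z (by simp [hz]))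
    exact (h3.cons_cons y).trans (List.sublist_append_right s1 _)

theorem gap {s p q w : List P} (hs : s.Nodup) (hw : w.Sublist s) (hpq : (p ++ q).Sublist s)
    (h : ∀ y ∈ w, (p ++ y :: q).Sublist s) : (p ++ (w ++ q)).Sublist s := by
  cases w with
  | nil => simpa using hpq
  | cons y w =>
    have hy : y ∈ s := hw.subset (by simp)
    obtain ⟨s1, s2, rfl⟩ := List.append_of_mem hy
    have h1 := split_sub (a := []) hs hw
    have h2 := split_sub hs (h y (by simp))
    have hs2 : s2.Nodup := (List.nodup_cons.mp (List.nodup_append.mp hs).2.1).2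
    have h3 : (w ++ q).Sublist s2 := by
      refine gap_aux hs2 h1.2 h2.2 fun z hz => ?_
      exact tail_sub hs (h1.2.subset hz) (h z (by simp [hz]))
    exact h2.1.append (h3.cons_cons y)

theorem exists_gap {s L : List P} {y : P} (hL : L.Sublist s) (hy : y ∈ s) (hyL : y ∉ L) :
    ∃ p q, L = p ++ q ∧ (p ++ y :: q).Sublist s := by
  obtain ⟨s1, s2, rfl⟩ := List.append_of_mem hy
  obtain ⟨l1, l2, rfl, h1, h2⟩ := List.sublist_append_iff.mp hL
  refine ⟨l1, l2, rfl, ?_⟩
  have h3 : l2.Sublist s2 := sub_of_notin h2 fun h => hyL (by simp [h])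
  exact h1.append (h3.cons_cons y)

theorem pre_lem {s : List P} : ∀ {M : List P}, s.Nodup → M.Sublist s →
    (∀ x ∈ s, x ∉ M → (M ++ [x]).Sublist s) → ∃ r, s = M ++ r := by
  induction s with
  | nil =>
    intro M _ hM _
    have h0 := List.sublist_nil.mp hM
    subst h0
    exact ⟨[], rfl⟩
  | cons x s ih =>
    intro M hs hM h
    have hxs : x ∉ s := (List.nodup_cons.mp hs).1
    cases M with
    | nil => exact ⟨x :: s, rfl⟩
    | cons y M =>
      by_cases hxy : x = y
      · subst hxy
        have hM' : M.Sublist s := List.cons_sublist_cons.mp hM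
        obtain ⟨r, hr⟩ := ih (List.nodup_cons.mp hs).2 hM' (fun z hz hzM => by
          have hne : z ≠ x := fun e => hxs (e ▸ hz)
          have h1 := h z (by simp [hz]) (by simp [hne, hzM])
          rw [List.cons_append] at h1
          exact List.cons_sublist_cons.mp h1)
        exact ⟨r, by rw [hr]; rfl⟩
      · exfalso
        have h1 : (y :: M).Sublist s := by
          cases hM with
          | cons _ h => exact h
          | cons_cons _ h => exact absurd rfl hxy
        have hx : x ∉ y :: M := fun hh => hxs (h1.subset hh)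
        have h2 := h x (by simp) hx
        rw [List.cons_append] at h2
        cases h2 with
        | cons _ h => exact hxs (h.subset (by simp))
        | cons_cons _ h => exact absurd rfl hxy

theorem mid_lem {M : List P} (hne : M ≠ []) : ∀ {s : List P}, s.Nodup → M.Sublist s →
    (∀ x ∈ s, x ∉ M → (x :: M).Sublist s ∨ (M ++ [x]).Sublist s) → ∃ l r, s = l ++ (M ++ r) := by
  intro s
  induction s with
  | nil => intro _ hM _; exact absurd (List.sublist_nil.mp hM) hne
  | cons x s ih =>
    intro hs hM h
    have hxs : x ∉ s := (List.nodup_cons.mp hs).1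
    by_cases hx : x ∈ M
    · obtain ⟨r, hr⟩ := pre_lem hs hM (fun z hz hzM => by
        rcases h z hz hzM with h1 | h1
        · exfalso
          have hzx : z ≠ x := fun e => hzM (e ▸ hx)
          cases h1 with
          | cons _ h => exact hxs (h.subset (by simp [hx]))
          | cons_cons _ h => exact absurd rfl hzx
        · exact h1)
      exact ⟨[], r, hr⟩
    · have hM' := sub_of_notin hM hx
      obtain ⟨l, r, hr⟩ := ih (List.nodup_cons.mp hs).2 hM' (fun z hz hzM => by
        have hne : x ≠ z := fun e => hxs (e ▸ hz)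
        rcases h z (by simp [hz]) hzM with h1 | h1
        · exact Or.inl (sub_of_notin h1 (by simp [hne, hx]))
        · exact Or.inr (sub_of_notin h1 (by simp [hne, hx])))
      exact ⟨x :: l, r, by rw [hr]; rfl⟩

/-- position relative to a block -/
theorem pos_left {l M r : List P} {x : P} (hs : (l ++ (M ++ r)).Nodup) (hne : M ≠ []) (hx : x ∈ l) :
    ¬ (M ++ [x]).Sublist (l ++ (M ++ r)) := by
  intro h
  obtain ⟨l1, l2, rfl⟩ := List.append_of_mem hx
  have h1 := split_sub (s1 := l1) (s2 := l2 ++ (M ++ r)) (a := M) (b := []) (by simpa using hs)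
    (by simpa using h)
  obtain ⟨z, M', rfl⟩ := List.exists_cons_of_ne_nil hne
  have hz : z ∈ l1 := h1.1.subset (by simp)
  have hn := (List.nodup_append.mp hs).2.2 z (by simp [hz]) z (by simp)
  exact hn rfl

theorem pos_right {l M r : List P} {x : P} (hs : (l ++ (M ++ r)).Nodup) (hne : M ≠ [])
    (hx : x ∈ r) : ¬ (x :: M).Sublist (l ++ (M ++ r)) := by
  intro h
  obtain ⟨r1, r2, rfl⟩ := List.append_of_mem hx
  have h1 := split_sub (s1 := l ++ (M ++ r1)) (s2 := r2) (a := []) (b := M) (by simpa using hs)
    (by simpa using h)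
  obtain ⟨z, M', rfl⟩ := List.exists_cons_of_ne_nil hne
  have hz : z ∈ r2 := h1.2.subset (by simp)
  have hs' := (List.nodup_append.mp (List.nodup_append.mp hs).2.1).2.2 z (by simp) z
    (by simp [hz])
  exact hs' rfl

/-- labels -/
theorem label {A : Type} (a0 : A) {u : List P} {s : List A} (hu : u.Nodup)
    (h : u.length = s.length) : ∃ ℓ : P → A, u.map ℓ = s := by
  classical
  refine ⟨fun x => s.getD (u.idxOf x) a0, ?_⟩
  apply List.ext_getElem (by simpa using h)
  intro i h1 h2
  rw [List.getElem_map, hu.idxOf_getElem]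
  simp [List.getD_eq_getElem?_getD, List.getElem?_eq_getElem h2]

end lists

section inv

variable {A B : Type} [DecidableEq A] {N : ℕ} {F : Multiset A → List A → B} {P : Type}

theorem val_perm {μ : Multiset A} {s s' : List A} (h : s.Perm s') (hs : Val μ s) : Val μ s' :=
  ⟨h.nodup_iff.mp hs.1, fun x => (h.mem_iff).symm.trans (hs.2 x)⟩

omit [DecidableEq A] in
theorem len_le [Fintype A] {s : List A} (hs : s.Nodup) : s.length ≤ Fintype.card A :=
  hs.length_le_card

theorem block [Fintype A] (a0 : A) {σ τ w q : List P} (hσ : σ.Nodup) (hEqv : Eqv N F σ τ)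
    (h1 : (w ++ q).Sublist σ) (h2 : (w.reverse ++ q).Sublist τ) (hw : Fintype.card A ≤ w.length)
    (hq : Fintype.card A ≤ q.length) (s1 s3 : List A) : E N F (s1 ++ s3) (s1.reverse ++ s3) := by
  intro μ hμ hV
  have hn := hV.1
  have hn' := List.nodup_append.mp hn
  have l1 : s1.length ≤ w.length := (len_le hn'.1).trans hw
  have l3 : s3.length ≤ q.length := (len_le hn'.2.1).trans hq
  set u1 := w.take s1.length with hu1
  set u3 := q.take s3.length with hu3
  have hsub : (u1 ++ u3).Sublist σ :=
    ((List.take_sublist _ _).append (List.take_sublist _ _)).trans h1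
  have hsub' : (u1.reverse ++ u3).Sublist τ :=
    ((List.take_sublist _ _).reverse.append (List.take_sublist _ _)).trans h2
  have e1 : u1.length = s1.length := by rw [hu1, List.length_take]; omega
  have e3 : u3.length = s3.length := by rw [hu3, List.length_take]; omega
  obtain ⟨ℓ, hℓ⟩ := label a0 (u := u1 ++ u3) (s := s1 ++ s3) (hσ.sublist hsub)
    (by rw [List.length_append, List.length_append, e1, e3])
  rw [List.map_append] at hℓ
  obtain ⟨g1, g3⟩ := List.append_inj hℓ (by rw [List.length_map, e1])
  have h := hEqv (u1 ++ u3) (u1.reverse ++ u3) hsub hsub'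
    ((List.reverse_perm u1).symm.append_right u3) ℓ μ hμ
  rw [List.map_append, List.map_append, List.map_reverse, g1, g3] at h
  exact h hV

theorem rev_inv [Fintype A] (a0 : A) {σ τ w : List P} (hσ : σ.Nodup) (hEqv : Eqv N F σ τ)
    (h1 : w.Sublist σ) (h2 : w.reverse.Sublist τ) (hw : Fintype.card A ≤ w.length) :
    InvRev N F := by
  intro s μ hμ hV
  have l1 : s.length ≤ w.length := (len_le hV.1).trans hw
  set u := w.take s.length with hu
  have hsub : u.Sublist σ := (List.take_sublist _ _).trans h1
  have hsub' : u.reverse.Sublist τ := (List.take_sublist _ _).reverse.trans h2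
  have e : u.length = s.length := by rw [hu, List.length_take]; omega
  obtain ⟨ℓ, hℓ⟩ := label a0 (u := u) (s := s) (hσ.sublist hsub) e
  have h := hEqv u u.reverse hsub hsub' (List.reverse_perm u).symm ℓ μ hμ
  rw [List.map_reverse, hℓ] at h
  exact h hV

theorem not_invAll (h : ¬ InvRot N F) : ¬ InvAll N F := fun h' =>
  h fun x s => h' _ _ (List.perm_append_singleton x s).symm

/-- Not too many elements of left type. -/
theorem count_left (hG : S_GEN) (hE : S_ESL) [Fintype A] (a0 : A) {σ τ L : List P}
    (hσ : σ.Nodup) (hτ : τ.Nodup) (hEqv : Eqv N F σ τ) (hInv : ¬ InvAll N F)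
    (hL : 4 * Fintype.card A + 5 ≤ L.length) (hLσ : L.Sublist σ) (hLτ : L.Sublist τ)
    (hmax : ∀ L' : List P, L'.Sublist σ → L'.Sublist τ → L'.length ≤ L.length)
    {Y : List P} (hY : Y.Sublist σ) (hYt : ∀ y ∈ Y, ∃ p q p' q' : List P, L = p ++ q ∧
      L = p' ++ q' ∧ (p ++ y :: q).Sublist σ ∧ (p' ++ y :: q').Sublist τ ∧
      p.length < 2 * Fintype.card A ∧ p'.length < 2 * Fintype.card A) :
    Y.length ≤ (2 * Fintype.card A) ^ 2 * 2 ^ (3 * Fintype.card A + 1) := by
  classical
  set k := Fintype.card A with hk
  have hYt' : ∀ y ∈ Y, ∃ i j : ℕ, i < 2 * k ∧ j < 2 * k ∧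
      (L.take i ++ y :: L.drop i).Sublist σ ∧ (L.take j ++ y :: L.drop j).Sublist τ := by
    intro y hy
    obtain ⟨p, q, p', q', h1, h2, h3, h4, h5, h6⟩ := hYt y hy
    refine ⟨p.length, p'.length, h5, h6, ?_, ?_⟩
    · have e1 : L.take p.length = p := by rw [h1, List.take_left]
      have e2 : L.drop p.length = q := by rw [h1, List.drop_left]
      rw [e1, e2]; exact h3
    · have e1 : L.take p'.length = p' := by rw [h2, List.take_left]
      have e2 : L.drop p'.length = q' := by rw [h2, List.drop_left]
      rw [e1, e2]; exact h4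
  choose! ci cj hc using hYt'
  by_contra hlen
  push Not at hlen
  have hYn : Y.Nodup := hσ.sublist hY
  have hmaps : ∀ y ∈ Y.toFinset, (ci y, cj y) ∈ Finset.range (2 * k) ×ˢ Finset.range (2 * k) := by
    intro y hy
    have := hc y (List.mem_toFinset.mp hy)
    rw [Finset.mem_product, Finset.mem_range, Finset.mem_range]
    exact ⟨this.1, this.2.1⟩
  obtain ⟨⟨i, j⟩, hij, hcard⟩ := Finset.exists_lt_card_fiber_of_mul_lt_card_of_maps_to hmaps
    (n := 2 ^ (3 * k + 1)) (by
      rw [Finset.card_product, Finset.card_range, List.toFinset_card_of_nodup hYn, ← pow_two]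
      exact hlen)
  rw [Finset.mem_product, Finset.mem_range, Finset.mem_range] at hij
  obtain ⟨hi, hj⟩ := hij
  simp only at hi hj
  set Y' := Y.filter (fun y => (ci y, cj y) = (i, j)) with hY'
  have hY'len : 2 ^ (3 * k + 1) < Y'.length := by
    have e : Y'.length = (Y.toFinset.filter (fun y => (ci y, cj y) = (i, j))).card := by
      rw [← List.toFinset_card_of_nodup (hYn.filter _), List.toFinset_filter]
      congr 1
      ext y
      simp
    rw [e]
    exact hcard
  have hY'sub : Y'.Sublist Y := List.filter_sublist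
  have hY'σ : Y'.Sublist σ := hY'sub.trans hY
  have hin : ∀ y ∈ Y', (L.take i ++ y :: L.drop i).Sublist σ ∧
      (L.take j ++ y :: L.drop j).Sublist τ := by
    intro y hy
    have h1 := List.mem_filter.mp hy
    have h2 : (ci y, cj y) = (i, j) := by simpa using h1.2
    have h3 := hc y h1.1
    have e1 : ci y = i := congrArg Prod.fst h2
    have e2 : cj y = j := congrArg Prod.snd h2
    rw [e1, e2] at h3
    exact ⟨h3.2.2.1, h3.2.2.2⟩
  have hLi : (L.take i ++ L.drop i).Sublist σ := by rw [List.take_append_drop]; exact hLσ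
  have hLj : (L.take j ++ L.drop j).Sublist τ := by rw [List.take_append_drop]; exact hLτ
  have d1 : (L.take (min i j)).Sublist (L.take i) := by
    have : L.take (min i j) = (L.take i).take j := by rw [List.take_take, min_comm]
    rw [this]; exact List.take_sublist _ _
  have d2 : (L.take (min i j)).Sublist (L.take j) := by
    have : L.take (min i j) = (L.take j).take i := by rw [List.take_take]
    rw [this]; exact List.take_sublist _ _
  have d3 : (L.drop (max i j)).Sublist (L.drop i) := by
    have : L.drop (max i j) = (L.drop i).drop (max i j - i) := by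
      rw [List.drop_drop]; congr 1; omega
    rw [this]; exact List.drop_sublist _ _
  have d4 : (L.drop (max i j)).Sublist (L.drop j) := by
    have : L.drop (max i j) = (L.drop j).drop (max i j - j) := by
      rw [List.drop_drop]; congr 1; omega
    rw [this]; exact List.drop_sublist _ _
  rcases hE P (2 * k + 1) k Y' τ (hσ.sublist hY'σ)
    (fun x hx => (hin x hx).2.subset (by simp))
    (by
      have : 2 * k + 1 + k = 3 * k + 1 := by ring
      rw [this]; exact hY'len.le) with ⟨w, hw, hw1, hw2⟩ | ⟨w, hw, hw1, hw2⟩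
  · have g1 := gap hσ (hw1.trans hY'σ) hLi (fun y hy => (hin y (hw1.subset hy)).1)
    have g2 := gap hτ hw2 hLj (fun y hy => (hin y (hw1.subset hy)).2)
    have c1 : (L.take (min i j) ++ (w ++ L.drop (max i j))).Sublist σ :=
      (d1.append ((List.Sublist.refl w).append d3)).trans g1
    have c2 : (L.take (min i j) ++ (w ++ L.drop (max i j))).Sublist τ :=
      (d2.append ((List.Sublist.refl w).append d4)).trans g2
    have := hmax _ c1 c2
    rw [List.length_append, List.length_append, List.length_take, List.length_drop, hw] at this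
    omega
  · have g1 := gap hσ (hw1.trans hY'σ) hLi (fun y hy => (hin y (hw1.subset hy)).1)
    have g2 := gap hτ hw2 hLj
      (fun y hy => (hin y (hw1.subset (List.mem_reverse.mp hy))).2)
    have c1 : (w ++ L.drop (max i j)).Sublist σ :=
      (((List.Sublist.refl w).append d3).trans (List.sublist_append_right _ _)).trans g1
    have c2 : (w.reverse ++ L.drop (max i j)).Sublist τ :=
      (((List.Sublist.refl w.reverse).append d4).trans (List.sublist_append_right _ _)).trans g2
    refine hInv ((hG A B N F).2.2.2.2.2.2.2.1 (block a0 hσ hEqv c1 c2 hw.ge ?_))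
    rw [List.length_drop]
    omega

/-- the mirror image of `F` -/
def mir (F : Multiset A → List A → B) : Multiset A → List A → B := fun μ s => F μ s.reverse

theorem E_mir {s s' : List A} : E N (mir F) s s' ↔ E N F s.reverse s'.reverse := by
  constructor
  · intro h μ hμ hV
    exact h μ hμ (val_perm (List.reverse_perm s) hV)
  · intro h μ hμ hV
    exact h μ hμ (val_perm (List.reverse_perm s).symm hV)

theorem eqv_mir {σ τ : List P} (h : Eqv N F σ τ) : Eqv N (mir F) σ.reverse τ.reverse := by
  intro u u' hu hu' hp ℓ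
  rw [E_mir, ← List.map_reverse, ← List.map_reverse]
  refine h _ _ ?_ ?_ ?_ ℓ
  · have := hu.reverse; rwa [List.reverse_reverse] at this
  · have := hu'.reverse; rwa [List.reverse_reverse] at this
  · exact (List.reverse_perm u).trans (hp.trans (List.reverse_perm u').symm)

theorem invAll_mir (h : InvAll N (mir F)) : InvAll N F := by
  intro s s' hs
  have := h s.reverse s'.reverse ((List.reverse_perm s).trans (hs.trans
    (List.reverse_perm s').symm))
  rw [E_mir, List.reverse_reverse, List.reverse_reverse] at this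
  exact this

/-- Not too many elements of right type. -/
theorem count_right (hG : S_GEN) (hE : S_ESL) [Fintype A] (a0 : A) {σ τ L : List P}
    (hσ : σ.Nodup) (hτ : τ.Nodup) (hEqv : Eqv N F σ τ) (hInv : ¬ InvAll N F)
    (hL : 4 * Fintype.card A + 5 ≤ L.length) (hLσ : L.Sublist σ) (hLτ : L.Sublist τ)
    (hmax : ∀ L' : List P, L'.Sublist σ → L'.Sublist τ → L'.length ≤ L.length)
    {Y : List P} (hY : Y.Sublist σ) (hYt : ∀ y ∈ Y, ∃ p q p' q' : List P, L = p ++ q ∧
      L = p' ++ q' ∧ (p ++ y :: q).Sublist σ ∧ (p' ++ y :: q').Sublist τ ∧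
      q.length < 2 * Fintype.card A ∧ q'.length < 2 * Fintype.card A) :
    Y.length ≤ (2 * Fintype.card A) ^ 2 * 2 ^ (3 * Fintype.card A + 1) := by
  rw [← List.length_reverse]
  refine count_left hG hE a0 (N := N) (F := mir F) (σ := σ.reverse) (τ := τ.reverse)
    (L := L.reverse) (List.nodup_reverse.mpr hσ) (List.nodup_reverse.mpr hτ) (eqv_mir hEqv)
    (fun h => hInv (invAll_mir h)) (by rw [List.length_reverse]; exact hL) hLσ.reverse
    hLτ.reverse ?_ hY.reverse ?_
  · intro L' h1 h2
    have h3 := h1.reverse
    have h4 := h2.reverse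
    rw [List.reverse_reverse] at h3 h4
    have := hmax _ h3 h4
    rwa [List.length_reverse, ← List.length_reverse (as := L)] at this
  · intro y hy
    obtain ⟨p, q, p', q', h1, h2, h3, h4, h5, h6⟩ := hYt y (List.mem_reverse.mp hy)
    refine ⟨q.reverse, p.reverse, q'.reverse, p'.reverse, ?_, ?_, ?_, ?_, ?_, ?_⟩
    · rw [h1, List.reverse_append]
    · rw [h2, List.reverse_append]
    · have := h3.reverse; simpa using this
    · have := h4.reverse; simpa using this
    · rw [List.length_reverse]; exact h5
    · rw [List.length_reverse]; exact h6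

/-- a longest common sublist -/
theorem exists_max {σ τ L0 : List P} (h1 : L0.Sublist σ) (h2 : L0.Sublist τ) :
    ∃ L : List P, L.Sublist σ ∧ L.Sublist τ ∧ L0.length ≤ L.length ∧
      ∀ L' : List P, L'.Sublist σ → L'.Sublist τ → L'.length ≤ L.length := by
  set S : Set ℕ := {n | ∃ L' : List P, L'.Sublist σ ∧ L'.Sublist τ ∧ L'.length = n} with hS
  have hb : BddAbove S := ⟨σ.length, by rintro n ⟨L', h, -, rfl⟩; exact h.length_le⟩
  have hne : S.Nonempty := ⟨L0.length, L0, h1, h2, rfl⟩
  obtain ⟨L, h3, h4, h5⟩ := Nat.sSup_mem hne hb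
  refine ⟨L, h3, h4, ?_, fun L' h6 h7 => ?_⟩
  · rw [h5]; exact le_csSup hb ⟨L0, h1, h2, rfl⟩
  · rw [h5]; exact le_csSup hb ⟨L', h6, h7, rfl⟩

theorem main (hG : S_GEN) (hT : S_TRI) (hE : S_ESL) [Fintype A] (a0 : A) (hRot : ¬ InvRot N F)
    {σ τ : List P} (hσ : σ.Nodup) (hτ : τ.Nodup) (hp : σ.Perm τ) (hEqv : Eqv N F σ τ) {Q : ℕ}
    (hQ : Q = 2 * Fintype.card A + (2 * Fintype.card A) ^ 2 * 2 ^ (3 * Fintype.card A + 1))
    (hlen : 2 * Q ≤ σ.length) {L0 : List P} (h0 : 4 * Fintype.card A + 5 ≤ L0.length)
    (h0σ : L0.Sublist σ) (h0τ : L0.Sublist τ) : Close Q σ τ := by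
  classical
  have hInv := not_invAll hRot
  obtain ⟨L, hLσ, hLτ, hL0, hmax⟩ := exists_max h0σ h0τ
  have hL : 4 * Fintype.card A + 5 ≤ L.length := h0.trans hL0
  set k := Fintype.card A with hk
  -- the type of an element outside `L`
  have typ : ∀ y ∈ σ, y ∉ L → ∃ p q p' q' : List P, L = p ++ q ∧ L = p' ++ q' ∧
      (p ++ y :: q).Sublist σ ∧ (p' ++ y :: q').Sublist τ ∧
      ((p.length < 2 * k ∧ p'.length < 2 * k) ∨ (q.length < 2 * k ∧ q'.length < 2 * k)) := by
    intro y hy hyL
    obtain ⟨p, q, e1, g1⟩ := exists_gap hLσ hy hyL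
    obtain ⟨p', q', e2, g2⟩ := exists_gap hLτ (hp.subset hy) hyL
    have hne : p.length ≠ p'.length := by
      intro he
      have e3 : p ++ q = p' ++ q' := e1.symm.trans e2
      obtain ⟨e4, e5⟩ := List.append_inj e3 he
      rw [← e4, ← e5] at g2
      have h1 := hmax _ g1 g2
      rw [e1] at h1
      simp at h1
    rcases hT A B N F P σ τ L p q p' q' y hσ hτ hEqv hInv (by omega) e1 e2 g1 g2 hne with
      ⟨-, h1, h2⟩ | ⟨-, h1, h2⟩ | ⟨h, -⟩
    · exact ⟨p, q, p', q', e1, e2, g1, g2, Or.inl ⟨h1, h2⟩⟩
    · exact ⟨p, q, p', q', e1, e2, g1, g2, Or.inr ⟨h1, h2⟩⟩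
    · exact absurd h hRot
  -- the middle part of `L`
  set L1 := L.take (2 * k) with hL1
  set M := (L.drop (2 * k)).take (L.length - 4 * k) with hM
  set L3 := (L.drop (2 * k)).drop (L.length - 4 * k) with hL3
  have hLdec : L = L1 ++ (M ++ L3) := by
    rw [hM, hL3, List.take_append_drop, hL1, List.take_append_drop]
  have hMlen : M.length = L.length - 4 * k := by
    rw [hM, List.length_take, List.length_drop]; omega
  have hMne : M ≠ [] := by
    intro h
    rw [h] at hMlen
    simp at hMlen
    omega
  have hML : M.Sublist L := (List.take_sublist _ _).trans (List.drop_sublist _ _)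
  have hLn : L.Nodup := hσ.sublist hLσ
  -- elements of left and right type
  have left_of : ∀ (s : List P) (y : P) (p q : List P), L = p ++ q → (p ++ y :: q).Sublist s →
      p.length < 2 * k → (y :: M).Sublist s := by
    intro s y p q e h1 h2
    have e1 : q = L.drop p.length := by rw [e, List.drop_left]
    have e2 : M.Sublist q := by
      rw [e1, hM]
      refine (List.take_sublist _ _).trans ?_
      have : L.drop (2 * k) = (L.drop p.length).drop (2 * k - p.length) := by
        rw [List.drop_drop]; congr 1; omega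
      rw [this]
      exact List.drop_sublist _ _
    exact ((e2.cons_cons y).trans (List.sublist_append_right p _)).trans h1
  have right_of : ∀ (s : List P) (y : P) (p q : List P), L = p ++ q → (p ++ y :: q).Sublist s →
      q.length < 2 * k → (M ++ [y]).Sublist s := by
    intro s y p q e h1 h2
    have hl : p.length + q.length = L.length := by rw [e, List.length_append]
    have e2 : M.Sublist p := by
      have e3 : p = L.take p.length := by rw [e, List.take_left]
      rw [e3]
      have e4 : (L1 ++ M) = L.take (L1.length + M.length) := by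
        conv_rhs => rw [hLdec]
        rw [← List.append_assoc, ← List.length_append, List.take_left]
      have e5 : L1.length = 2 * k := by rw [hL1, List.length_take]; omega
      have e6 : (L1 ++ M).Sublist (L.take p.length) := by
        rw [e4, e5, hMlen]
        have : L.take (2 * k + (L.length - 4 * k)) =
            (L.take p.length).take (2 * k + (L.length - 4 * k)) := by
          rw [List.take_take]; congr 1; omega
        rw [this]
        exact List.take_sublist _ _
      exact (List.sublist_append_right L1 M).trans e6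
    have e7 : (M ++ [y]).Sublist (p ++ y :: q) := by
      refine e2.append ?_
      exact (List.nil_sublist q).cons_cons y
    exact e7.trans h1
  -- every element of `σ` outside `M` is on the same side in `σ` and `τ`
  have side : ∀ x ∈ σ, x ∉ M → ((x :: M).Sublist σ ∧ (x :: M).Sublist τ) ∨
      ((M ++ [x]).Sublist σ ∧ (M ++ [x]).Sublist τ) := by
    intro x hx hxM
    by_cases hxL : x ∈ L
    · have h1 : x ∈ L1 ∨ x ∈ L3 := by
        rw [hLdec] at hxL
        simp only [List.mem_append] at hxL
        tauto
      rcases h1 with h1 | h1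
      · left
        have h2 : (x :: M).Sublist L := by
          rw [hLdec]
          have : (x :: M) = [x] ++ M := rfl
          rw [this]
          exact (List.singleton_sublist.mpr h1).append (List.sublist_append_left M L3)
        exact ⟨h2.trans hLσ, h2.trans hLτ⟩
      · right
        have h2 : (M ++ [x]).Sublist L := by
          rw [hLdec]
          exact ((List.Sublist.refl M).append (List.singleton_sublist.mpr h1)).trans
            (List.sublist_append_right L1 _)
        exact ⟨h2.trans hLσ, h2.trans hLτ⟩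
    · obtain ⟨p, q, p', q', e1, e2, g1, g2, h | h⟩ := typ x hx hxL
      · exact Or.inl ⟨left_of σ x p q e1 g1 h.1, left_of τ x p' q' e2 g2 h.2⟩
      · exact Or.inr ⟨right_of σ x p q e1 g1 h.1, right_of τ x p' q' e2 g2 h.2⟩
  obtain ⟨l, r, hσd⟩ := mid_lem hMne hσ (hML.trans hLσ) (fun x hx hxM => by
    rcases side x hx hxM with h | h
    · exact Or.inl h.1
    · exact Or.inr h.1)
  obtain ⟨l', r', hτd⟩ := mid_lem hMne hτ (hML.trans hLτ) (fun x hx hxM => by
    rcases side x (hp.symm.subset hx) hxM with h | h
    · exact Or.inl h.2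
    · exact Or.inr h.2)
  have hσ' : (l ++ (M ++ r)).Nodup := hσd ▸ hσ
  have hτ' : (l' ++ (M ++ r')).Nodup := hτd ▸ hτ
  have nσ := List.nodup_append.mp hσ'
  have nσ2 := List.nodup_append.mp nσ.2.1
  have nτ := List.nodup_append.mp hτ'
  have nτ2 := List.nodup_append.mp nτ.2.1
  -- membership in `l` and `r`
  have hlM : ∀ x ∈ l, x ∉ M := fun x hx hxM => nσ.2.2 x hx x (by simp [hxM]) rfl
  have hrM : ∀ x ∈ r, x ∉ M := fun x hx hxM => nσ2.2.2 x hxM x hx rfl
  have hl'M : ∀ x ∈ l', x ∉ M := fun x hx hxM => nτ.2.2 x hx x (by simp [hxM]) rfl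
  have hr'M : ∀ x ∈ r', x ∉ M := fun x hx hxM => nτ2.2.2 x hxM x hx rfl
  have hlσ : ∀ x ∈ l, x ∈ σ := fun x hx => by rw [hσd]; simp [hx]
  have hrσ : ∀ x ∈ r, x ∈ σ := fun x hx => by rw [hσd]; simp [hx]
  have hl'σ : ∀ x ∈ l', x ∈ σ := fun x hx => hp.symm.subset (by rw [hτd]; simp [hx])
  have hr'σ : ∀ x ∈ r', x ∈ σ := fun x hx => hp.symm.subset (by rw [hτd]; simp [hx])
  have nleft : ∀ x ∈ l, ¬ (M ++ [x]).Sublist σ := fun x hx h =>
    pos_left hσ' hMne hx (by rw [← hσd]; exact h)
  have nright : ∀ x ∈ r, ¬ (x :: M).Sublist σ := fun x hx h =>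
    pos_right hσ' hMne hx (by rw [← hσd]; exact h)
  have nleft' : ∀ x ∈ l', ¬ (M ++ [x]).Sublist τ := fun x hx h =>
    pos_left hτ' hMne hx (by rw [← hτd]; exact h)
  have nright' : ∀ x ∈ r', ¬ (x :: M).Sublist τ := fun x hx h =>
    pos_right hτ' hMne hx (by rw [← hτd]; exact h)
  have inσ : ∀ x ∈ σ, x ∉ M → x ∈ l ∨ x ∈ r := fun x hx hxM => by
    rw [hσd] at hx
    simp only [List.mem_append] at hx
    tauto
  have inτ : ∀ x ∈ σ, x ∉ M → x ∈ l' ∨ x ∈ r' := fun x hx hxM => by
    have := hp.subset hx
    rw [hτd] at this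
    simp only [List.mem_append] at this
    tauto
  have hll : l.Perm l' := by
    rw [List.perm_ext_iff_of_nodup nσ.1 nτ.1]
    intro x
    constructor
    · intro hx
      rcases inτ x (hlσ x hx) (hlM x hx) with h | h
      · exact h
      · exfalso
        rcases side x (hlσ x hx) (hlM x hx) with h1 | h1
        · exact nright' x h h1.2
        · exact nleft x hx h1.1
    · intro hx
      rcases inσ x (hl'σ x hx) (hl'M x hx) with h | h
      · exact h
      · exfalso
        rcases side x (hl'σ x hx) (hl'M x hx) with h1 | h1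
        · exact nright x h h1.1
        · exact nleft' x hx h1.2
  have hrr : r.Perm r' := by
    rw [List.perm_ext_iff_of_nodup nσ2.2.1 nτ2.2.1]
    intro x
    constructor
    · intro hx
      rcases inτ x (hrσ x hx) (hrM x hx) with h | h
      · exfalso
        rcases side x (hrσ x hx) (hrM x hx) with h1 | h1
        · exact nright x hx h1.1
        · exact nleft' x h h1.2
      · exact h
    · intro hx
      rcases inσ x (hr'σ x hx) (hr'M x hx) with h | h
      · exfalso
        rcases side x (hr'σ x hx) (hr'M x hx) with h1 | h1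
        · exact nright' x hx h1.2
        · exact nleft x h h1.1
      · exact h
  -- lengths
  have hlsub : l.Sublist σ := by rw [hσd]; exact List.sublist_append_left _ _
  have hrsub : r.Sublist σ := by
    rw [hσd]
    exact (List.sublist_append_right M r).trans (List.sublist_append_right l _)
  have hL1len : L1.length = 2 * k := by rw [hL1, List.length_take]; omega
  have hL3len : L3.length = 2 * k := by
    rw [hL3, List.length_drop, List.length_drop]; omega
  have hcl := count_left hG hE a0 hσ hτ hEqv hInv hL hLσ hLτ hmax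
    (Y := l.filter (fun x => x ∉ L)) (List.filter_sublist.trans hlsub) (fun y hy => by
      have hy1 := List.mem_filter.mp hy
      have hyL : y ∉ L := by simpa using hy1.2
      obtain ⟨p, q, p', q', e1, e2, g1, g2, h | h⟩ := typ y (hlσ y hy1.1) hyL
      · exact ⟨p, q, p', q', e1, e2, g1, g2, h⟩
      · exact absurd (right_of σ y p q e1 g1 h.1) (nleft y hy1.1))
  have hcr := count_right hG hE a0 hσ hτ hEqv hInv hL hLσ hLτ hmax
    (Y := r.filter (fun x => x ∉ L)) (List.filter_sublist.trans hrsub) (fun y hy => by
      have hy1 := List.mem_filter.mp hy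
      have hyL : y ∉ L := by simpa using hy1.2
      obtain ⟨p, q, p', q', e1, e2, g1, g2, h | h⟩ := typ y (hrσ y hy1.1) hyL
      · exact absurd (left_of σ y p q e1 g1 h.1) (nright y hy1.1)
      · exact ⟨p, q, p', q', e1, e2, g1, g2, h⟩)
  rw [← hk] at hcl hcr
  have hl1 : (l.filter (fun x => x ∈ L)).length ≤ 2 * k := by
    rw [← hL1len]
    refine ((nσ.1.filter _).subperm ?_).length_le
    intro x hx
    have hx1 := List.mem_filter.mp hx
    have hxL : x ∈ L := by simpa using hx1.2
    have hxM := hlM x hx1.1
    have hx3 : x ∉ L3 := fun h3 => by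
      apply nleft x hx1.1
      have h2 : (M ++ [x]).Sublist L := by
        rw [hLdec]
        exact ((List.Sublist.refl M).append (List.singleton_sublist.mpr h3)).trans
          (List.sublist_append_right L1 _)
      exact h2.trans hLσ
    rw [hLdec] at hxL
    simp only [List.mem_append] at hxL
    tauto
  have hr1 : (r.filter (fun x => x ∈ L)).length ≤ 2 * k := by
    rw [← hL3len]
    refine ((nσ2.2.1.filter _).subperm ?_).length_le
    intro x hx
    have hx1 := List.mem_filter.mp hx
    have hxL : x ∈ L := by simpa using hx1.2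
    have hxM := hrM x hx1.1
    have hx3 : x ∉ L1 := fun h3 => by
      apply nright x hx1.1
      have h2 : (x :: M).Sublist L := by
        rw [hLdec]
        have : (x :: M) = [x] ++ M := rfl
        rw [this]
        exact (List.singleton_sublist.mpr h3).append (List.sublist_append_left M L3)
      exact h2.trans hLσ
    rw [hLdec] at hxL
    simp only [List.mem_append] at hxL
    tauto
  have splitlen : ∀ t : List P, t.length = (t.filter (fun x => x ∈ L)).length +
      (t.filter (fun x => x ∉ L)).length := by
    intro t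
    have := List.length_eq_length_filter_add (l := t) (fun x => decide (x ∈ L))
    have e : (fun x => !decide (x ∈ L)) = (fun x => decide (x ∉ L)) := by
      funext x
      simp
    rw [e] at this
    exact this
  have hlQ : l.length ≤ Q := by rw [splitlen l, hQ]; omega
  have hrQ : r.length ≤ Q := by rw [splitlen r, hQ]; omega
  have hσl : l.length + (M.length + r.length) = σ.length := by
    rw [hσd, List.length_append, List.length_append]
  -- cut the middle
  set M1 := M.take (Q - l.length) with hM1
  set M2 := (M.drop (Q - l.length)).take (M.length - (Q - l.length) - (Q - r.length)) with hM2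
  set M3 := (M.drop (Q - l.length)).drop (M.length - (Q - l.length) - (Q - r.length)) with hM3
  have hMd : M = M1 ++ (M2 ++ M3) := by
    rw [hM2, hM3, List.take_append_drop, hM1, List.take_append_drop]
  refine ⟨l ++ M1, M2, M3 ++ r, l' ++ M1, M3 ++ r', ?_, ?_, hll.append_right M1,
    hrr.append_left M3, ?_, ?_⟩
  · rw [hσd]
    conv_lhs => rw [hMd]
    simp only [List.append_assoc]
  · rw [hτd]
    conv_lhs => rw [hMd]
    simp only [List.append_assoc]
  · rw [List.length_append, hM1, List.length_take]; omega
  · rw [List.length_append, hM3, List.length_drop, List.length_drop]; omega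

end inv

theorem t_ALPHA (hG : S_GEN) (hT : S_TRI) (hE : S_ESL) : S_ALPHA := by
  intro k
  refine ⟨2 * k + (2 * k) ^ 2 * 2 ^ (3 * k + 1),
    2 * (2 * k + (2 * k) ^ 2 * 2 ^ (3 * k + 1)) + 2 ^ (2 * (4 * k + 5)), ?_⟩
  intro A B _ _ hA N F hRot P σ τ hσ hτ hp hlen hEqv
  have hne : Nonempty A := by
    by_contra h
    rw [not_nonempty_iff] at h
    exact hRot fun x => (h.false x).elim
  obtain ⟨a0⟩ := hne
  rcases hE P (4 * k + 5) (4 * k + 5) σ τ hσ (fun x hx => hp.subset hx)
    (by rw [← two_mul]; omega) with ⟨L, h1, h2, h3⟩ | ⟨w, h1, h2, h3⟩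
  · left
    exact main hG hT hE a0 hRot hσ hτ hp hEqv (by rw [hA])
      (le_trans (Nat.le_add_right _ _) hlen) (by rw [hA]; omega) h2 h3
  · right
    have hrev : InvRev N F := rev_inv a0 hσ hEqv h2 h3 (by rw [hA]; omega)
    refine ⟨hrev, ?_⟩
    have hEqv' : Eqv N F σ τ.reverse := by
      intro u u' hu hu' hp' ℓ μ hμ hV
      have h4 : u'.reverse.Sublist τ := by
        have := hu'.reverse; rwa [List.reverse_reverse] at this
      have h5 := hEqv u u'.reverse hu h4 (hp'.trans (List.reverse_perm u').symm) ℓ μ hμ hV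
      have h6 : Val μ (u'.map ℓ) := val_perm (hp'.map ℓ) hV
      have h7 := hrev (u'.map ℓ) μ hμ h6
      rw [h5, List.map_reverse, ← h7]
    have h4 : w.Sublist τ.reverse := by
      have := h3.reverse; rwa [List.reverse_reverse] at this
    exact main hG hT hE a0 hRot hσ (List.nodup_reverse.mpr hτ)
      (hp.trans (List.reverse_perm τ).symm) hEqv' (by rw [hA])
      (le_trans (Nat.le_add_right _ _) hlen) (by rw [hA]; omega) h2 h4

end Pool.Agent.U692.RC
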